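import Mathlib

namespace Pool.Agent.Results.MP_df5386_co.SpreadSlope

open Matrix

open Classical in
/-- The 0-1 adjacency matrix of the digraph with arc relation `A`. -/
noncomputable def adj {V : Type*} (A : V → V → Prop) : Matrix V V ℝ :=
  Matrix.of fun i j => if A i j then 1 else 0

open Classical in
/-- The Laplacian `D - A`, where `D` is the diagonal matrix of out-degrees. -/
noncomputable def lap {V : Type*} [Fintype V] (A : V → V → Prop) : Matrix V V ℝ :=
  Matrix.diagonal (fun i => ∑ j, adj A i j) - adj A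

/-- The set of values `xᵀ L x` over the real unit vectors `x` orthogonal to the all-ones vector. -/
noncomputable def values {V : Type*} [Fintype V] (A : V → V → Prop) : Set ℝ :=
  {t | ∃ x : V → ℝ, ∑ i, x i = 0 ∧ ∑ i, x i ^ 2 = 1 ∧ t = x ⬝ᵥ (lap A *ᵥ x)}

/-- `α(Γ)`, the minimum of the values. -/
noncomputable def alpha {V : Type*} [Fintype V] (A : V → V → Prop) : ℝ := sInf (values A)

/-- `β(Γ)`, the maximum of the values. -/
noncomputable def beta {V : Type*} [Fintype V] (A : V → V → Prop) : ℝ := sSup (values A)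

/-- The Laplacian spread `β(Γ) - α(Γ)`. -/
noncomputable def spread {V : Type*} [Fintype V] (A : V → V → Prop) : ℝ := beta A - alpha A

open Classical in
lemma quad {V : Type*} [Fintype V] (A : V → V → Prop) (x : V → ℝ) :
    x ⬝ᵥ (lap A *ᵥ x) = ∑ i, ∑ j, if A i j then x i * (x i - x j) else 0 := by
  unfold lap
  rw [Matrix.sub_mulVec, dotProduct_sub]
  unfold dotProduct
  rw [← Finset.sum_sub_distrib]
  refine Finset.sum_congr rfl fun i _ => ?_
  rw [Matrix.mulVec_diagonal]
  have h1 : (adj A *ᵥ x) i = ∑ j, adj A i j * x j := rfl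
  rw [h1, Finset.sum_mul, Finset.mul_sum, Finset.mul_sum, ← Finset.sum_sub_distrib]
  refine Finset.sum_congr rfl fun j _ => ?_
  have h2 : adj A i j = if A i j then 1 else 0 := rfl
  rw [h2]
  split_ifs <;> ring

lemma bdd {V : Type*} [Fintype V] (A : V → V → Prop) :
    BddAbove (values A) ∧ BddBelow (values A) := by
  classical
  have key : ∀ t ∈ values A, |t| ≤ ∑ i : V, ∑ j : V, (2 : ℝ) := by
    rintro t ⟨x, -, h1, rfl⟩
    have hx : ∀ i, |x i| ≤ 1 := by
      intro i
      have : x i ^ 2 ≤ 1 := by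
        rw [← h1]
        exact Finset.single_le_sum (f := fun i => x i ^ 2) (fun i _ => sq_nonneg _) (Finset.mem_univ i)
      rw [abs_le]
      constructor <;> nlinarith
    rw [quad]
    refine (Finset.abs_sum_le_sum_abs _ _).trans (Finset.sum_le_sum fun i _ => ?_)
    refine (Finset.abs_sum_le_sum_abs _ _).trans (Finset.sum_le_sum fun j _ => ?_)
    split_ifs
    · rw [abs_mul]
      have h2 : |x i - x j| ≤ 2 := by
        refine (abs_sub _ _).trans ?_
        have := hx i; have := hx j; linarith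
      have := hx i
      have := abs_nonneg (x i)
      have := abs_nonneg (x i - x j)
      nlinarith
    · simp
  refine ⟨⟨_, fun t ht => (abs_le.1 (key t ht)).2⟩, ⟨_, fun t ht => (abs_le.1 (key t ht)).1⟩⟩

lemma mem_values {V : Type*} [Fintype V] (A : V → V → Prop) (v : V → ℝ) (N : ℝ) (hN : 0 < N)
    (h0 : ∑ i, v i = 0) (h1 : ∑ i, v i ^ 2 = N) : (v ⬝ᵥ (lap A *ᵥ v)) / N ∈ values A := by
  refine ⟨fun i => (Real.sqrt N)⁻¹ * v i, ?_, ?_, ?_⟩
  · rw [← Finset.mul_sum, h0, mul_zero]
  · simp only [mul_pow]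
    rw [← Finset.mul_sum, h1, inv_pow, Real.sq_sqrt hN.le]
    field_simp
  · have : (fun i => (Real.sqrt N)⁻¹ * v i) = (Real.sqrt N)⁻¹ • v := by
      funext i; simp
    rw [this, Matrix.mulVec_smul, smul_dotProduct, dotProduct_smul, smul_eq_mul, smul_eq_mul,
      ← mul_assoc, ← mul_inv, Real.mul_self_sqrt hN.le]
    field_simp

/-- the digraph: a vertex dominating everything, and four blocks of size `m` -/
def Ex (m : ℕ) : Option (Fin 4 × Fin m) → Option (Fin 4 × Fin m) → Prop
  | none, some _ => True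
  | some p, some q => (p.1 = 0 ∧ q.1 = 1) ∨ (p.1 = 2 ∧ q.1 = 3)
  | _, none => False

lemma ex_irrefl (m : ℕ) (v) : ¬ Ex m v v := by
  rcases v with _ | p
  · simp [Ex]
  · simp only [Ex]
    rintro (⟨h1, h2⟩ | ⟨h1, h2⟩) <;> rw [h1] at h2 <;> exact absurd h2 (by decide)

def vx (m : ℕ) : Option (Fin 4 × Fin m) → ℝ
  | none => 4 * m
  | some _ => -1

def vy (m : ℕ) : Option (Fin 4 × Fin m) → ℝ
  | none => 0
  | some p => ![2, 5, -2, -5] p.1

lemma quad_ex (m : ℕ) (x : Option (Fin 4 × Fin m) → ℝ) :
    x ⬝ᵥ (lap (Ex m) *ᵥ x) = (∑ q : Fin 4 × Fin m, x none * (x none - x (some q)))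
      + ((∑ a : Fin m, ∑ b : Fin m, x (some (0, a)) * (x (some (0, a)) - x (some (1, b))))
      + (∑ a : Fin m, ∑ b : Fin m, x (some (2, a)) * (x (some (2, a)) - x (some (3, b))))) := by
  classical
  rw [quad, Fintype.sum_option]
  congr 1
  · rw [Fintype.sum_option]
    simp [Ex]
  · simp only [Fintype.sum_option, Ex]
    simp only [Fintype.sum_prod_type, Fin.sum_univ_four]
    simp

/-- **The slope of the Laplacian spread exceeds one.** For every real `C` there is a loopless
digraph `Γ` (arc relation `A`) of some order `n ≥ 2` with spread larger than `(21/20) n + C`.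
In particular the spread is not bounded by `n + C`. -/
theorem result (C : ℝ) : ∃ (V : Type) (_ : Fintype V) (A : V → V → Prop),
    2 ≤ Fintype.card V ∧ (∀ v, ¬ A v v) ∧
      (21 / 20 : ℝ) * Fintype.card V + C < spread A := by
  obtain ⟨m, hm⟩ := exists_nat_gt (max 1 (200 * (|C| + 2)))
  have hm1 : (1 : ℝ) < m := lt_of_le_of_lt (le_max_left _ _) hm
  have hm2 : 200 * (|C| + 2) < m := lt_of_le_of_lt (le_max_right _ _) hm
  refine ⟨Option (Fin 4 × Fin m), inferInstance, Ex m, ?_, ex_irrefl m, ?_⟩
  · have : 1 < m := by exact_mod_cast hm1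
    simp; omega
  · have hb : (4 * m : ℝ) ≤ beta (Ex m) := by
      refine le_csSup (bdd _).1 ?_
      have h0 : ∑ i, vx m i = 0 := by
        rw [Fintype.sum_option]; simp [vx]
      have h1 : ∑ i, vx m i ^ 2 = 4 * m * (4 * m + 1) := by
        rw [Fintype.sum_option]; simp [vx]; ring
      have hpos : (0 : ℝ) < 4 * m * (4 * m + 1) := by positivity
      have h2 := mem_values (Ex m) (vx m) _ hpos h0 h1
      have h3 : (vx m) ⬝ᵥ (lap (Ex m) *ᵥ (vx m)) = 4 * m * (4 * m * (4 * m + 1)) := by
        rw [quad_ex]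
        simp [vx]
      rw [h3] at h2
      rwa [mul_div_assoc, div_self hpos.ne', mul_one] at h2
    have ha : alpha (Ex m) ≤ -(6 * m / 29) := by
      refine csInf_le (bdd _).2 ?_
      have h0 : ∑ i, vy m i = 0 := by
        rw [Fintype.sum_option, Fintype.sum_prod_type, Fin.sum_univ_four]
        simp [vy]
      have h1 : ∑ i, vy m i ^ 2 = 58 * m := by
        rw [Fintype.sum_option, Fintype.sum_prod_type, Fin.sum_univ_four]
        simp [vy]; ring
      have hpos : (0 : ℝ) < 58 * m := by positivity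
      have h2 := mem_values (Ex m) (vy m) _ hpos h0 h1
      have h3 : (vy m) ⬝ᵥ (lap (Ex m) *ᵥ (vy m)) = -12 * m ^ 2 := by
        rw [quad_ex]
        simp [vy]
        ring
      rw [h3] at h2
      have h4 : (-12 * (m : ℝ) ^ 2) / (58 * m) = -(6 * m / 29) := by
        have : (m : ℝ) ≠ 0 := by positivity
        field_simp
        ring
      rwa [h4] at h2
    have hc : (Fintype.card (Option (Fin 4 × Fin m)) : ℝ) = 4 * m + 1 := by
      simp
    rw [hc]
    unfold spread
    have := le_abs_self C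
    linarith

end Pool.Agent.Results.MP_df5386_co.SpreadSlope
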